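import Pool.Agent.Helper22.SC.Conv

/-! # Module G0: `BL` implies `SL` -/

namespace Pool.Agent.Helper76.SC

universe u

open ZFSet
open Pool.Agent.Helper66.SC
open Pool.Agent.Helper22.SC

variable {C : Cls.{u}}
variable {α : Type (u + 1)} [Ctx.{u} α]

theorem FM_eq (x : ZFSet.{u}) :
    FM x = ZFSet.iUnion (fun n : ULift.{u} ℕ => FMn x n.down) := by
  ext z
  rw [FM, mem_iUnion, mem_iUnion]
  constructor
  · rintro ⟨n, hn⟩
    exact ⟨⟨n⟩, hn⟩
  · rintro ⟨⟨n⟩, hn⟩
    exact ⟨n, hn⟩

/-- `FM` is uniformly definable. -/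
theorem U_FM [ZCls C] {f : Set ZFSet.{u} → Set ZFSet.{u} → α → ZFSet.{u}} (hf : U C f) :
    U C (fun N A a => FM (f N A a)) := by
  have h0 : U C (fun _ _ (p : ZFSet.{u}) => FM p) := by
    have h := U.natUnion (C := C) (α := ZFSet.{u})
      (z := fun _ _ p => img p (fun y => ZFSet.pair ∅ y))
      (S := fun _ _ _ _ g => g ∪ img (g.prod g) (fun y => ZFSet.pair {∅} y))
      (H := fun _ _ p n => FMn p n)
      (by apply_rules (transparency := .reducible) (maxDepth := 400) using is_poly)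
      (by apply_rules (transparency := .reducible) (maxDepth := 400) using is_poly)
      (fun _ _ _ => rfl) (fun _ _ _ _ => rfl)
    refine h.congr ?_
    intro N A _ p _
    exact (FM_eq p).symm
  exact h0.comp hf

theorem FM_mem {M A : Set ZFSet.{u}} (hM : IsZF M A) {x : ZFSet.{u}} (hx : x ∈ M) :
    FM x ∈ M :=
  in_zfset.1 ((U_FM (C := fun M A => IsZF M A) (U.id (α := ZFSet.{u}))).closed hM
    (a := x) (in_zfset.2 hx))

theorem Pow_mem {M A : Set ZFSet.{u}} (hM : IsZF M A) {x : ZFSet.{u}} (hx : x ∈ M) :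
    Helper66.SC.Pow M x ∈ M :=
  in_zfset.1 ((U.pow (C := fun M A => IsZF M A) (U.id (α := ZFSet.{u}))).closed hM
    (a := x) (in_zfset.2 hx))

theorem prod_mem {M A : Set ZFSet.{u}} (hM : IsZF M A) {x y : ZFSet.{u}} (hx : x ∈ M)
    (hy : y ∈ M) : x.prod y ∈ M := by
  have := (U.prod (C := fun M A => IsZF M A) (α := ZFSet.{u} × ZFSet.{u}) U.id.fst
    U.id.snd).closed hM (a := (x, y)) (by simp [hx, hy])
  simpa using this

theorem rank_pair_lt {x y : ZFSet.{u}} {o : Ordinal.{u}} (hx : x.rank < o) (hy : y.rank < o) :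
    (ZFSet.pair x y).rank < o + 2 := by
  have h1 : ({x} : ZFSet.{u}).rank < o + 1 := by
    rw [rank_singleton]
    exact Order.succ_lt_succ hx
  have h2 : ({x, y} : ZFSet.{u}).rank < o + 1 := by
    rw [rank_pair, max_lt_iff]
    exact ⟨Order.succ_lt_succ hx, Order.succ_lt_succ hy⟩
  unfold ZFSet.pair
  have h3 : (o + 2 : Ordinal.{u}) = Order.succ (o + 1) := by
    rw [Order.succ_eq_add_one, add_assoc]
    norm_num
  rw [rank_pair, h3, max_lt_iff]
  exact ⟨Order.succ_lt_succ h1, Order.succ_lt_succ h2⟩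

theorem rank_FMn (a : Ordinal.{u}) (n : ℕ) :
    ∃ k : ℕ, ∀ x ∈ FMn (oz a) n, x.rank < a + k := by
  induction n with
  | zero =>
    refine ⟨3, ?_⟩
    intro x hx
    obtain ⟨y, hy, rfl⟩ := mem_img.1 hx
    have hy' : y.rank < a + 1 := by
      have := rank_lt_of_mem hy
      rw [Ordinal.rank_toZFSet] at this
      exact this.trans (Order.lt_add_one_iff.2 le_rfl)
    have h0 : (∅ : ZFSet.{u}).rank < a + 1 := by
      rw [rank_empty]
      exact (Order.lt_add_one_iff.2 (zero_le (a := a)) : (0 : Ordinal.{u}) < a + 1)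
    have := rank_pair_lt h0 hy'
    have e : a + 1 + 2 = a + ((3 : ℕ) : Ordinal.{u}) := by
      rw [add_assoc]
      norm_num
    rwa [e] at this
  | succ n ih =>
    obtain ⟨k, hk⟩ := ih
    refine ⟨k + 4, ?_⟩
    intro x hx
    rw [FMn, mem_union] at hx
    rcases hx with hx | hx
    · refine (hk x hx).trans_le ?_
      push_cast
      rw [← add_assoc]
      exact le_self_add
    · obtain ⟨y, hy, rfl⟩ := mem_img.1 hx
      rw [mem_prod] at hy
      obtain ⟨s, hs, t, ht, rfl⟩ := hy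
      have h1 := rank_pair_lt (hk s hs) (hk t ht)
      have h2 : ({∅} : ZFSet.{u}).rank < a + k + 2 := by
        rw [rank_singleton, rank_empty]
        refine lt_of_lt_of_le ?_ (le_add_self : (2 : Ordinal.{u}) ≤ a + k + 2)
        simp
      have h3 := rank_pair_lt h2 h1
      have e : a + k + 2 + 2 = a + ((k + 4 : ℕ) : Ordinal.{u}) := by
        push_cast
        rw [add_assoc, add_assoc]
        norm_num
      rwa [e] at h3

/-- G0: comparison of the two notions. -/
theorem st_G0 : ST_G0.{u} := by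
  intro M A hM o h
  obtain ⟨h1, h2, h3, h4⟩ := h
  have hmem : ∀ a < o, oz a ∈ M := fun a ha =>
    hM.trans _ h1 _ (Ordinal.toZFSet_mem_toZFSet_iff.2 ha)
  have hn : ∀ a < o, ∀ k : ℕ, a + (k : Ordinal.{u}) < o := by
    intro a ha k
    refine lt_trans ?_ (h3 a ha)
    exact (add_lt_add_iff_left a).2 (Ordinal.natCast_lt_omega0 k)
  refine ⟨h1, h2, h3, ?_, ?_, ?_⟩
  · intro a ha
    refine h4 _ (Pow_mem hM (hmem a ha)) ?_
    refine lt_of_le_of_lt ?_ (hn a ha 1)
    rw [rank_le_iff]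
    intro y hy
    rw [mem_Pow] at hy
    have := rank_mono hy.2
    rw [Ordinal.rank_toZFSet] at this
    push_cast
    exact Order.lt_add_one_iff.2 this
  · intro a ha
    refine h4 _ (prod_mem hM (hmem a ha) (hmem a ha)) ?_
    refine lt_of_le_of_lt ?_ (hn a ha 2)
    rw [rank_le_iff]
    intro y hy
    rw [mem_prod] at hy
    obtain ⟨s, hs, t, ht, rfl⟩ := hy
    have h5 := rank_lt_of_mem hs
    have h6 := rank_lt_of_mem ht
    rw [Ordinal.rank_toZFSet] at h5 h6
    have := rank_pair_lt h5 h6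
    push_cast
    exact this
  · intro a ha
    refine h4 _ (FM_mem hM (hmem a ha)) ?_
    refine lt_of_le_of_lt ?_ (h3 a ha)
    rw [rank_le_iff]
    intro y hy
    rw [FM, mem_iUnion] at hy
    obtain ⟨n, hn⟩ := hy
    obtain ⟨k, hk⟩ := rank_FMn a n
    refine (hk y hn).trans ?_
    exact (add_lt_add_iff_left a).2 (Ordinal.natCast_lt_omega0 k)

end Pool.Agent.Helper76.SC
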